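import Pool.Agent.TH127.LW.Top

/-!
# The conjectures of Beilinson on height pairings, for abelian varieties and similar varieties

`k` is a field (a number field, for the problem), `𝒱` a class of smooth projective geometrically
irreducible varieties over `k` closed under products, `C` the Chow groups with rational
coefficients (in the form of their formal properties, `IsChowProj`) and `H` a Weil cohomology theory
(`IsWeilProj`; `ℓ`-adic cohomology, for the problem). Let `n = dim X` and let `ℓ` be a divisor class
on `X`.

The variety `X` is supposed to have a Lefschetz-Chow-Kunneth decomposition `π_0, …, π_{2n}`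
(`IsLefschetzCK`). Abelian varieties with a symmetric ample class `ℓ` have one, by Deninger-Murre
and Kunnemann, and it is self-dual; `(π_j)_* CH^i(X)` is then the part `CH^i_(s)(X)`, `s = 2 i - j`,
of the decomposition of Beauville, on which multiplication by `m` acts by `m ^ (2 i - s)`.

* Q1 holds for `X` and `ℓ` if and only if `π_j` acts as zero on `Ch^i(X)^0` for `j ≠ 2 i - 1`
  (for abelian varieties: `Ch^i(X)^0 = CH^i_(1)(X)`).
* If `b` is a height pairing, then Q2 holds for `X` and `ℓ` if and only if `π_j` acts as zero on
  `Ch^i(X)^0` for `j ≥ 2 i` (for abelian varieties: both vanishing conjectures of Beauville,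
  `CH^i_(s)(X) = 0` for `s < 0` and `CH^i_(0)(X) ∩ Ch^i(X)^0 = 0`) and Q2 holds for the classes `x`
  with `(π_{2i-1})_* x = x`.
* If Q2 holds, then Q1 holds if and only if the pairing `b` is nondegenerate.

Proof of Q1 ⇒ purity: the Lefschetz isomorphisms of Chow groups identify the part of weight `j` of
`Ch^i` with the part of weight `2 n - j` of `Ch^(i+n-j)`; those of Q1 identify it with the part of
weight `j + 2 (n + 1 - 2 i)` of `Ch^(n+1-i)`. The two reflections have different centers; their
composition is a translation, `(i, 2 i - 1 + δ)` goes to `(i + δ, 2 (i + δ) - 1 + δ)`. Hence the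
part is isomorphic to one of codimension `< 0` or `> n`, if `δ ≠ 0`. For Q2 the two theorems give
primitive classes in parts of too high weight, whose self-intersection is `b(x, 0) = 0`.
-/

open CategoryTheory AlgebraicGeometry

set_option autoImplicit false

universe u v w

namespace Pool.Agent.Results.MP_e2c9e7_nt.AbelianVarietiesWeights

open Pool.Agent.H914 Pool.Agent.W492.BB Pool.Agent.TH133 Pool.Agent.TH127.LW

/-- Let `X` have a Lefschetz-Chow-Kunneth decomposition `π` for `ℓ`. The Lefschetz theorem Q1 of
Beilinson holds for `X` and `ℓ` if and only if `π_j` acts as zero on `Ch^i(X)^0` for all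
`j ≠ 2 i - 1`. Let `π` be self-dual and `b` a height pairing. The Hodge index theorem Q2 holds for
`X`, `ℓ`, `b` if and only if `π_j` acts as zero on `Ch^i(X)^0` for all `j ≥ 2 i` and Q2 holds for the
classes of weight `2 i - 1`; and under Q2, the Lefschetz theorem Q1 is equivalent to the
nondegeneracy of `b`. -/
theorem result {k : Type u} [Field k] {𝒱 : VarClass k} (C : TheoryData.{u, v, 0} 𝒱 ℚ)
    [IsChowProj C] {K : Type w} [Field K] (H : WeilTheoryData.{u, v, w} C K) [IsWeilProj H]
    (X : 𝒱.Obj) (ℓ : C.A X) (π : ℕ → C.A (X.prod X)) (hπ : IsLefschetzCK H X ℓ π) :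
    (ArithmeticLefschetz H X ℓ ↔ ∀ i j : ℕ, j + 1 ≠ 2 * i → ∀ z : C.A X, HomCycle H X i z →
      C.act (π j) z = 0) ∧
    ∀ (_ : IsSelfDual C π) (b : C.A X → C.A X → ℝ) (_ : IsHeightPairing H X ℓ b),
      (HodgeIndex H X ℓ b ↔ (∀ i j : ℕ, 2 * i ≤ j → ∀ z : C.A X, HomCycle H X i z →
        C.act (π j) z = 0) ∧ PureHodgeIndex H X ℓ π b) ∧
      (HodgeIndex H X ℓ b → (ArithmeticLefschetz H X ℓ ↔ IsNondegenerate H X b)) :=
  main hπ

end Pool.Agent.Results.MP_e2c9e7_nt.AbelianVarietiesWeights
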