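import Pool.Agent.TH122.HN.Stmt

/-!
# Beilinson's Hodge index conjecture and Northcott's property in the middle codimension

`k` is a field (a number field, for the problem), `𝒱` a class of smooth projective geometrically
irreducible varieties over `k` closed under products, `C` the Chow groups with rational
coefficients (in the form of their formal properties, `IsChowProj`), `H` a Weil cohomology theory
(`IsWeilProj`; `ℓ`-adic cohomology, for the problem) and `b` the family of the height pairings of
the varieties of the class (`IsHeightTheory`). Let `E` be a curve of the class with a class `o` of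
degree one and a homologically trivial class `e` with `b(e, e) < 0`. For a number field this is a
curve whose Jacobian has a point of infinite order (Hriljac, Faltings, Néron-Tate).

Let `X` be a variety of the class, `n = dim X`, and `ℓ` a divisor class on `X` with
`deg (ℓ ^ n) > 0`. Let `Z = X × E^(n+1)`, a variety of dimension `2 n + 1`, with the sum `Λ` of the
pull-backs of `ℓ` and of the `n + 1` classes `o` (it is ample if `ℓ` is).

* Suppose that the height pairing of the one variety `Z` has Northcott's property on the primitive
  classes of the middle codimension `n + 1`: among the integral classes `w` in `Ch^(n+1)(Z)^0` with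
  `Λ w = 0` only finitely many have `|b(w, w)| ≤ T`, for every `T`. Nothing is supposed on the sign
  of `b(w, w)`. Then Q2 holds for `X`, `ℓ` and all codimensions, with the right signs, and even
  with real coefficients; and the maps `ℓ^(n+1-2i)` of Q1 are injective.
* Let `S` be a family of pairs `(X, ℓ)` as above, closed under `(X, ℓ) ↦ (X × E, ℓ + o)` (for
  example all polarized varieties), and suppose that the spaces of primitive homologically trivial
  classes of the middle codimension are finite-dimensional. Then Q2 holds with real coefficients
  for all members of `S` and all codimensions if and only if all members of `S` of odd dimension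
  have Northcott's property in the middle codimension.

Proof: let `f` be the class of a point on the last factor of `X × E` and let `x` be a class of
codimension `i` with `ℓ^(k+1) x = 0`, `k = n + 1 - 2 i`. The class `x × 1` has the weight `k + 1` on
`X × E`, the class `ℓ x × 1 - k x × f` has codimension `i + 1` and weight `k - 1`, and for both the
number `(-1)^i b(x, ℓ^k x)` is multiplied by `k + 1`. So `x` gives a class `x'` of the middle
codimension on `Z`, and so does the class `1 × e` of codimension one and weight `n` on `X × E`,
for which this number is `- deg (ℓ^n) b(e, e) > 0`. By Northcott's property and Dirichlet's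
approximation theorem all values of the form on `Z` have the same sign.
-/

open CategoryTheory AlgebraicGeometry

set_option autoImplicit false

universe u w

namespace Pool.Agent.Results.MP_e2c9e7_nt.NorthcottHodgeIndex

open Pool.Agent.H914 Pool.Agent.H914.VarClass Pool.Agent.H914.VarClass.Obj Pool.Agent.W492.BB
  Pool.Agent.TH133 Pool.Agent.TH127.LW Pool.Agent.TH122.HN

theorem result {k : Type u} [Field k] {𝒱 : VarClass k} (C : TheoryData.{u, 0, 0} 𝒱 ℚ)
    [IsChowProj C] {K : Type w} [Field K] (H : WeilTheoryData.{u, 0, w} C K) [IsWeilProj H]
    (b : ∀ X : 𝒱.Obj, C.A X → C.A X → ℝ) (_ : IsHeightTheory H b) (E : 𝒱.Obj) (o e : C.A E)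
    (_ : IsTestCurve H b E o e) :
    (∀ P : Σ X : 𝒱.Obj, C.A X, IsPositive P →
      MiddleNorthcott H b ((step E o)^[P.1.dim + 1] P) (P.1.dim + 1) →
        HodgeIndex H P.1 P.2 (b P.1) ∧ RealHodgeIndex H b P ∧ LefschetzInjective H P) ∧
    ∀ S : Set (Σ X : 𝒱.Obj, C.A X), IsFamily H E o S →
      ((∀ P ∈ S, ∀ m : ℕ, 2 * m = P.1.dim + 1 → MiddleNorthcott H b P m) ↔
        ∀ P ∈ S, RealHodgeIndex H b P) := by
  rename_i hb ht
  have hpt : IsPt C E o := ⟨ht.dim, ht.deg, ht.one⟩
  have key : ∀ P : Σ X : 𝒱.Obj, C.A X, IsPositive P →
      MiddleNorthcott H b ((step E o)^[P.1.dim + 1] P) (P.1.dim + 1) →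
      RealHodgeIndex H b P := by
    rintro ⟨X, ℓ⟩ ⟨hℓ, d, hd, hdeg⟩ hN i m hnum r v hv hprim hli c hc
    exact main_real hb hpt ht.hom ht.neg hℓ hd hdeg hN i m hnum r v hv hprim hli c hc
  refine ⟨fun P hP hN => ?_, fun S hS => ⟨fun h P hPP => ?_, fun h P hPP m hm => ?_⟩⟩
  · have h1 := key P hP hN
    have h2 : HodgeIndex H P.1 P.2 (b P.1) := hodge_of_real h1
    refine ⟨h2, h1, fun i m hnum x hx hx0 => ?_⟩
    by_contra hne
    have h3 := h2 i m hnum x hx hne (by rw [pow_succ', mul_assoc, hx0, mul_zero])
    rw [hx0, zero_right hb hx.2, mul_zero] at h3
    exact lt_irrefl _ h3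
  · have hmem : ∀ s : ℕ, (step E o)^[s] P ∈ S := by
      intro s
      induction s with
      | zero => exact hPP
      | succ s ih =>
        rw [Function.iterate_succ_apply']
        exact hS.step _ ih
    have hdim : ∀ s : ℕ, ((step E o)^[s] P).1.dim = P.1.dim + s := by
      intro s
      induction s with
      | zero => rfl
      | succ s ih =>
        rw [Function.iterate_succ_apply']
        change ((step E o)^[s] P).1.dim + E.dim = _
        rw [ih, ht.dim]
        rfl
    refine key P (hS.pos _ hPP) (h _ (hmem _) _ ?_)
    rw [hdim]
    ring
  · exact northcott_of_real hb hm (hS.finite hPP hm) (h P hPP)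

end Pool.Agent.Results.MP_e2c9e7_nt.NorthcottHodgeIndex
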